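import Pool.Agent.H38.LA.Main

open Pool.Agent.H38.LA

theorem Pool.Agent.Results.MP_0036f5_lc.Square.result :
    ∃ (A Γ : Type) (_ : Fintype A) (_ : Fintype Γ),
    Fintype.card A = 7 ∧ Fintype.card Γ = 15 ∧ ∀ h : ℕ, 1 ≤ h →
      ∃ (Q : Type) (_ : Fintype Q) (M : Aut Q A Γ), Fintype.card Q = 8 * h + 1 ∧
        (∀ q σ, (M.δ q σ).ncard ≤ 2) ∧
        (∀ q g, ∀ p ∈ M.δ q (.cell g), p.2.1 ∉ Set.range M.inp ∧
          (g ∉ Set.range M.inp → p.2.1 = g)) ∧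
        ∀ (Q' Γ' : Type) [Fintype Q'] (D : Aut Q' A Γ'), D.Det →
          (∀ w, M.Accepts w ↔ D.Accepts w) → 2 ^ (h ^ 2) ≤ Fintype.card Q' :=
  main
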